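import Mathlib

set_option autoImplicit false

namespace Pool.Agent.Results.MP_b004e2_gt.TwoLines

/-- The group of self-homeomorphisms of `M` leaving `f` invariant. -/
def G {M : Type} [TopologicalSpace M] (f : M → ℝ) : Subgroup (M ≃ₜ M) where
  carrier := {T | ∀ p, f (T p) = f p}
  mul_mem' := by
    intro a b ha hb p
    show f (a (b p)) = f p
    rw [ha, hb]
  one_mem' := fun p => rfl
  inv_mem' := by
    intro a ha p
    show f (a.symm p) = f p
    have := ha (a.symm p)
    rw [Homeomorph.apply_symm_apply] at this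
    exact this.symm

theorem cont_isLeft : Continuous (fun z : ℝ ⊕ ℝ => z.isLeft) :=
  continuous_sum_dom.mpr ⟨continuous_const, continuous_const⟩

theorem not_homeo : ¬ Nonempty (ℝ ≃ₜ (ℝ ⊕ ℝ)) := by
  rintro ⟨e⟩
  have hc : Continuous (fun x : ℝ => (e x).isLeft) := cont_isLeft.comp e.continuous
  have h := PreconnectedSpace.constant (inferInstance : PreconnectedSpace ℝ) hc
    (x := e.symm (Sum.inl 0)) (y := e.symm (Sum.inr 0))
  simp at h

theorem exists_g (f₀ : ℝ → ℝ) : ∃ g : ℝ → ℝ, Continuous g ∧ Function.Injective g ∧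
    Set.range g ≠ Set.range f₀ := by
  by_cases h : Set.range f₀ = Set.range Real.exp
  · refine ⟨fun x => -Real.exp x, Real.continuous_exp.neg, ?_, ?_⟩
    · intro x y hxy
      exact Real.exp_injective (neg_injective hxy)
    · rw [h]
      intro h2
      have h3 : Real.exp 0 ∈ Set.range (fun x => -Real.exp x) := by
        rw [h2]
        exact ⟨0, rfl⟩
      obtain ⟨x, hx⟩ := h3
      have h4 := Real.exp_pos x
      have h5 := Real.exp_pos 0
      simp only at hx
      linarith
  · exact ⟨Real.exp, Real.continuous_exp, Real.exp_injective, fun h2 => h h2.symm⟩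

theorem structureT (f₀ g : ℝ → ℝ) (hg : Function.Injective g) (hr : Set.range g ≠ Set.range f₀)
    (T : (ℝ ⊕ ℝ) ≃ₜ (ℝ ⊕ ℝ)) (hT : ∀ p, Sum.elim f₀ g (T p) = Sum.elim f₀ g p) :
    (∀ x, ∃ y, T (Sum.inl x) = Sum.inl y) ∧ ∀ x, T (Sum.inr x) = Sum.inr x := by
  have c1 : ∀ x y : ℝ, (T (Sum.inl x)).isLeft = (T (Sum.inl y)).isLeft := fun x y =>
    PreconnectedSpace.constant (inferInstance : PreconnectedSpace ℝ)
      (cont_isLeft.comp (T.continuous.comp continuous_inl)) (x := x) (y := y)
  have c2 : ∀ x y : ℝ, (T (Sum.inr x)).isLeft = (T (Sum.inr y)).isLeft := fun x y =>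
    PreconnectedSpace.constant (inferInstance : PreconnectedSpace ℝ)
      (cont_isLeft.comp (T.continuous.comp continuous_inr)) (x := x) (y := y)
  have hL : ∀ z : ℝ ⊕ ℝ, z.isLeft = true → ∃ y, z = Sum.inl y := by
    rintro (y | y) h
    · exact ⟨y, rfl⟩
    · simp at h
  have hR : ∀ z : ℝ ⊕ ℝ, z.isLeft = false → ∃ y, z = Sum.inr y := by
    rintro (y | y) h
    · simp at h
    · exact ⟨y, rfl⟩
  cases h1 : (T (Sum.inl 0)).isLeft <;> cases h2 : (T (Sum.inr 0)).isLeft
  · -- both right
    exfalso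
    obtain ⟨p, hp⟩ := T.surjective (Sum.inl 0)
    rcases p with p | p
    · have := c1 p 0
      rw [hp, h1] at this
      simp at this
    · have := c2 p 0
      rw [hp, h2] at this
      simp at this
  · exfalso
    apply hr
    ext t
    constructor
    · rintro ⟨x, rfl⟩
      obtain ⟨y, hy⟩ := hL (T (Sum.inr x)) ((c2 x 0).trans h2)
      have := hT (Sum.inr x)
      rw [hy] at this
      exact ⟨y, this⟩
    · rintro ⟨x, rfl⟩
      obtain ⟨y, hy⟩ := hR (T (Sum.inl x)) ((c1 x 0).trans h1)
      have := hT (Sum.inl x)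
      rw [hy] at this
      exact ⟨y, this⟩
  · refine ⟨fun x => hL _ ((c1 x 0).trans h1), fun x => ?_⟩
    obtain ⟨y, hy⟩ := hR (T (Sum.inr x)) ((c2 x 0).trans h2)
    have := hT (Sum.inr x)
    rw [hy] at this
    rw [hy, hg this]
  · exfalso
    obtain ⟨p, hp⟩ := T.surjective (Sum.inr 0)
    rcases p with p | p
    · have := c1 p 0
      rw [hp, h1] at this
      simp at this
    · have := c2 p 0
      rw [hp, h2] at this
      simp at this

def L (z : ℝ ⊕ ℝ) : ℝ := Sum.elim id (fun _ => 0) z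

theorem cont_L : Continuous L := continuous_sum_dom.mpr ⟨continuous_id, continuous_const⟩

/-- `ℝ` and `ℝ ⊔ ℝ` are non-homeomorphic 1-manifolds, and every invariance group of a continuous
function on `ℝ` is isomorphic to one on `ℝ ⊔ ℝ`. -/
theorem result :
    Nonempty (ChartedSpace ℝ (ℝ ⊕ ℝ)) ∧ ¬ Nonempty (ℝ ≃ₜ (ℝ ⊕ ℝ)) ∧
    ∀ f₀ : ℝ → ℝ, Continuous f₀ → ∃ f : ℝ ⊕ ℝ → ℝ, Continuous f ∧ Nonempty (G f₀ ≃* G f) := by
  refine ⟨⟨inferInstance⟩, not_homeo, ?_⟩
  intro f₀ hf₀
  obtain ⟨g, hg, hinj, hr⟩ := exists_g f₀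
  refine ⟨Sum.elim f₀ g, continuous_sum_dom.mpr ⟨hf₀, hg⟩, ?_⟩
  let ψ : G f₀ →* G (Sum.elim f₀ g) :=
    { toFun := fun S => ⟨Homeomorph.sumCongr S.1 (Homeomorph.refl ℝ), by
        rintro (p | p)
        · exact S.2 p
        · rfl⟩
      map_one' := by
        apply Subtype.ext
        ext p
        rcases p with p | p <;> rfl
      map_mul' := by
        intro a b
        apply Subtype.ext
        ext p
        rcases p with p | p <;> rfl }
  refine ⟨MulEquiv.ofBijective ψ ⟨?_, ?_⟩⟩
  · intro a b hab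
    apply Subtype.ext
    ext x
    have h1 := congrArg (fun z : G (Sum.elim f₀ g) => (z.1 : (ℝ ⊕ ℝ) ≃ₜ (ℝ ⊕ ℝ)) (Sum.inl x)) hab
    exact Sum.inl_injective h1
  · rintro ⟨T, hT⟩
    have hT' : ∀ p, Sum.elim f₀ g (T.symm p) = Sum.elim f₀ g p := (G (Sum.elim f₀ g)).inv_mem hT
    obtain ⟨s1, s2⟩ := structureT f₀ g hinj hr T hT
    obtain ⟨t1, t2⟩ := structureT f₀ g hinj hr T.symm hT'
    let S : ℝ ≃ₜ ℝ :=
      { toFun := fun x => L (T (Sum.inl x))
        invFun := fun x => L (T.symm (Sum.inl x))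
        left_inv := by
          intro x
          obtain ⟨y, hy⟩ := s1 x
          show L (T.symm (Sum.inl (L (T (Sum.inl x))))) = x
          rw [hy]
          show L (T.symm (Sum.inl y)) = x
          rw [← hy, Homeomorph.symm_apply_apply]
          rfl
        right_inv := by
          intro x
          obtain ⟨y, hy⟩ := t1 x
          show L (T (Sum.inl (L (T.symm (Sum.inl x))))) = x
          rw [hy]
          show L (T (Sum.inl y)) = x
          rw [← hy, Homeomorph.apply_symm_apply]
          rfl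
        continuous_toFun := cont_L.comp (T.continuous.comp continuous_inl)
        continuous_invFun := cont_L.comp (T.symm.continuous.comp continuous_inl) }
    have hS : ∀ x, T (Sum.inl x) = Sum.inl (S x) := by
      intro x
      obtain ⟨y, hy⟩ := s1 x
      show T (Sum.inl x) = Sum.inl (L (T (Sum.inl x)))
      rw [hy]
      rfl
    refine ⟨⟨S, ?_⟩, ?_⟩
    · intro p
      have := hT (Sum.inl p)
      rw [hS] at this
      exact this
    · apply Subtype.ext
      ext p
      rcases p with p | p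
      · exact (hS p).symm
      · exact (s2 p).symm

end Pool.Agent.Results.MP_b004e2_gt.TwoLines
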